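import Mathlib
import Pool.Agent.V11180.IPDensity

/-!
# MP_23b914_co: an IP set which is not expanding

There are a sequence of positive integers `x` and a set `A` of integers of positive upper Banach
density such that `A - A + FS(x)` contains no Bohr set.
-/

set_option autoImplicit false

open Finset Filter
open scoped ENNReal Pointwise

namespace Pool.Agent.Results.MP_23b914_co.NotExpanding

/-- the upper Banach density of a set of integers -/
noncomputable def upperBanachDensity (A : Set ℤ) : ℝ≥0∞ :=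
  limsup (fun N : ℕ => ⨆ M : ℤ, ((A ∩ Set.Ioc M (M + N)).ncard : ℝ≥0∞) / N) atTop

/-- the Bohr set with frequencies `α` and radius `η` -/
def bohrSet {k : ℕ} (α : Fin k → ℝ) (η : ℝ) : Set ℤ :=
  {x : ℤ | ∀ j, ‖Complex.exp (2 * Real.pi * Complex.I * α j * x) - 1‖ < η}

/-- `T` contains a Bohr set -/
def ContainsBohrSet (T : Set ℤ) : Prop :=
  ∃ (k : ℕ) (α : Fin k → ℝ) (η : ℝ), 0 < η ∧ bohrSet α η ⊆ T

/-- the set of finite nonempty sums of a sequence -/
def FS (x : ℕ → ℕ) : Set ℤ :=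
  {t : ℤ | ∃ F : Finset ℕ, F.Nonempty ∧ t = ∑ n ∈ F, (x n : ℤ)}

open Pool.Agent.V11180.IPBits in
lemma density_window (K : ℕ) (hK : 1 ≤ K) :
    (1 / 4 : ℝ≥0∞) ≤ (⨆ M : ℤ, ((A Cj nj rr 0 ∩ Set.Ioc M (M + (2 * s Cj (a nj K - 1) : ℕ))).ncard :
        ℝ≥0∞) / (2 * s Cj (a nj K - 1) : ℕ)) ∨
      (1 / 4 : ℝ≥0∞) ≤ (⨆ M : ℤ, ((A Cj nj rr 1 ∩ Set.Ioc M (M + (2 * s Cj (a nj K - 1) : ℕ))).ncard :
        ℝ≥0∞) / (2 * s Cj (a nj K - 1) : ℕ)) := by
  classical
  have hd := density Cj nj rr nj_pos (fun j => by have := (nj_spec j).1; omega)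
    (fun j => by have := (nj_spec j).2; simpa using this) hK
  set P := 2 * s Cj (a nj K - 1) with hP
  have hPpos : 0 < P := by
    have := s_pos Cj (a nj K - 1)
    omega
  have key : ∀ ε : ℕ, P ≤ 4 * ((range P).filter (fun Y => win Cj nj K Y ∈ A Cj nj rr ε)).card →
      (1 / 4 : ℝ≥0∞) ≤ (⨆ M : ℤ, ((A Cj nj rr ε ∩ Set.Ioc M (M + (P : ℕ))).ncard :
        ℝ≥0∞) / (P : ℕ)) := by
    intro ε hε
    have h1 : ((range P).filter (fun Y => win Cj nj K Y ∈ A Cj nj rr ε)).card ≤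
        (A Cj nj rr ε ∩ Set.Ioc (-(c Cj (a nj K - 1) : ℤ) - 1)
          ((-(c Cj (a nj K - 1) : ℤ) - 1) + (P : ℕ))).ncard := by
      have h2 : (((range P).filter (fun Y => win Cj nj K Y ∈ A Cj nj rr ε)).image
          (fun Y => win Cj nj K Y)).card =
          ((range P).filter (fun Y => win Cj nj K Y ∈ A Cj nj rr ε)).card := by
        apply card_image_of_injective
        intro Y Y' h
        simp only [win] at h
        omega
      rw [← h2, ← Set.ncard_coe_finset]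
      apply Set.ncard_le_ncard
      · intro z hz
        rw [mem_coe, mem_image] at hz
        obtain ⟨Y, hY, rfl⟩ := hz
        rw [mem_filter, mem_range] at hY
        refine ⟨hY.2, ?_⟩
        rw [Set.mem_Ioc, win]
        constructor <;> omega
      · exact (Set.finite_Ioc _ _).subset Set.inter_subset_right
    refine le_trans ?_ (le_iSup _ (-(c Cj (a nj K - 1) : ℤ) - 1))
    rw [ENNReal.le_div_iff_mul_le (Or.inl (by exact_mod_cast hPpos.ne')) (Or.inl (by simp))]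
    have h3 : (P : ℝ≥0∞) ≤ 4 * ((A Cj nj rr ε ∩ Set.Ioc (-(c Cj (a nj K - 1) : ℤ) - 1)
          ((-(c Cj (a nj K - 1) : ℤ) - 1) + (P : ℕ))).ncard : ℝ≥0∞) := by
      exact_mod_cast hε.trans (Nat.mul_le_mul_left 4 h1)
    calc (1 / 4 : ℝ≥0∞) * P ≤ (1 / 4) * (4 * ((A Cj nj rr ε ∩ Set.Ioc (-(c Cj (a nj K - 1) : ℤ) - 1)
          ((-(c Cj (a nj K - 1) : ℤ) - 1) + (P : ℕ))).ncard : ℝ≥0∞)) := by gcongr
      _ = _ := by
        rw [← mul_assoc, one_div, ENNReal.inv_mul_cancel (by norm_num) (by norm_num), one_mul]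
  rcases Nat.lt_or_ge (4 * ((range P).filter (fun Y => win Cj nj K Y ∈ A Cj nj rr 0)).card) P with
    h | h
  · right
    apply key
    omega
  · left
    exact key 0 h

open Pool.Agent.V11180.IPBits in
lemma dense_class : ∃ ε : ℕ, 0 < upperBanachDensity (A Cj nj rr ε) := by
  have hfreq : ∃ᶠ N : ℕ in atTop,
      ((1 / 4 : ℝ≥0∞) ≤ (⨆ M : ℤ, ((A Cj nj rr 0 ∩ Set.Ioc M (M + N)).ncard : ℝ≥0∞) / N)) ∨
      ((1 / 4 : ℝ≥0∞) ≤ (⨆ M : ℤ, ((A Cj nj rr 1 ∩ Set.Ioc M (M + N)).ncard : ℝ≥0∞) / N)) := by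
    rw [frequently_atTop]
    intro N
    refine ⟨2 * s Cj (a nj (N + 1) - 1), ?_, ?_⟩
    · have h1 := le_a nj nj_pos (N + 1)
      have h2 := lt_s Cj (a nj (N + 1) - 1)
      omega
    · exact density_window (N + 1) (by omega)
  rw [frequently_or_distrib] at hfreq
  rcases hfreq with h | h
  · exact ⟨0, lt_of_lt_of_le (by norm_num) (le_limsup_of_frequently_le h)⟩
  · exact ⟨1, lt_of_lt_of_le (by norm_num) (le_limsup_of_frequently_le h)⟩

open Pool.Agent.V11180.IPBits in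
lemma no_bohr (ε : ℕ) :
    ¬ ContainsBohrSet (A Cj nj rr ε - A Cj nj rr ε + FS gen) := by
  rintro ⟨k, α, η, hη, hsub⟩
  obtain ⟨j₀, hj₀⟩ := exists_nat_one_div_lt hη
  set j := max k j₀ with hj
  have hjη : (1 : ℝ) / (j + 1) < η := by
    refine lt_of_le_of_lt ?_ hj₀
    have h1 : (j₀ : ℝ) ≤ j := by exact_mod_cast le_max_right k j₀
    gcongr
  obtain ⟨m, hm, hmZ⟩ := (MM_spec j).2 (fun i q =>
    if h : q.val < k then Circle.exp (2 * Real.pi * α ⟨q.val, h⟩ * s Cj (a nj j + i)) else 1)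
  set R : ℤ := ∑ i, (m i : ℤ) * s Cj (a nj j + i) with hR
  have hRB : R ∈ bohrSet α η := by
    intro q
    have h1 := hmZ ⟨q.val, by have := q.isLt; omega⟩
    refine lt_of_eq_of_lt ?_ (h1.trans hjη)
    congr 2
    rw [show ∀ f : Fin (2 * nj j) → Circle, ((∏ i, f i : Circle) : ℂ) = ∏ i, ((f i : Circle) : ℂ)
      from fun f => map_prod Circle.coeHom f univ]
    have h2 : ∀ i : Fin (2 * nj j), (((if h : q.val < k then
        Circle.exp (2 * Real.pi * α ⟨q.val, h⟩ * s Cj (a nj j + i)) else 1) ^ m i : Circle) : ℂ) =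
        Complex.exp (m i * (2 * Real.pi * α q * s Cj (a nj j + i) * Complex.I)) := by
      intro i
      rw [dif_pos q.isLt, Circle.coe_pow, Circle.coe_exp, ← Complex.exp_nat_mul]
      push_cast
      rfl
    rw [prod_congr rfl (fun i _ => h2 i), ← Complex.exp_sum]
    congr 1
    rw [hR]
    push_cast
    rw [mul_sum]
    apply sum_congr rfl
    intro i _
    ring
  obtain ⟨d, hd, y, hy, hdy⟩ := hsub hRB
  obtain ⟨x₁, hx₁, x₂, hx₂, hx12⟩ := hd
  obtain ⟨Fs, -, hFs⟩ := hy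
  have h3 := avoid hm Fs hx₂
  apply h3
  have h4 : x₂ + ((∑ i, (m i : ℤ) * s Cj (a nj j + i)) - ∑ t ∈ Fs, (gen t : ℤ)) = x₁ := by
    rw [← hR, ← hFs]
    simp only at hx12 hdy
    omega
  rw [h4]
  exact hx₁

/-- **An IP set which is not expanding.** There are a sequence `x` of positive integers and a set
`A` of integers of positive upper Banach density such that `A - A + FS(x)` contains no Bohr
set. -/
theorem result : ∃ x : ℕ → ℕ, (∀ n, 0 < x n) ∧ ∃ A : Set ℤ, 0 < upperBanachDensity A ∧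
    ¬ ContainsBohrSet (A - A + FS x) := by
  obtain ⟨ε, hε⟩ := dense_class
  refine ⟨Pool.Agent.V11180.IPBits.gen, ?_, _, hε, no_bohr ε⟩
  intro n
  rw [Pool.Agent.V11180.IPBits.gen]
  have := Pool.Agent.V11180.IPBits.s_pos Pool.Agent.V11180.IPBits.Cj
    (Pool.Agent.V11180.IPBits.a Pool.Agent.V11180.IPBits.nj n)
  omega

end Pool.Agent.Results.MP_23b914_co.NotExpanding
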